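import Pool.Agent.Q280.SI.Monm

/-!
# The monoid Stark conjecture for the maximal order of a real quadratic field, up to powers
-/

set_option autoImplicit false

namespace Pool.Agent.Results.MP_6bf7a3_nt.MonoidUnitsUpToPowers

open NumberField Pool.Agent.Q20.SI Pool.Agent.Q280.SI

/-- **Theorem.** Let `F` be a real quadratic field, `𝔪 ≠ 0` an ideal, and `H` an abelian extension of `F`
unramified outside `𝔪` with an embedding in `ℝ` (for example the ray class field of `𝔪∞₂`), with group `G`,
and `c` in `G` the complex conjugation above `∞₂`.
(1) The assertions (i)-(iv) of the monoid Stark conjecture hold up to powers for all classes of the monoid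
(`D.Q1`: for all divisors `𝔫` of `𝔪` and all subfields `L` of `H` unramified outside `𝔫` there are `n ≥ 1` and
units `ε_g = δ_g²` of `L`, `g` in `Gal(L/F)`, with `ε_g = exp(-n Z_𝔫'(0, g))`, `h(δ_g) = δ_hg` and
`|φ(ε_g)| = 1` for the embeddings `φ` of `L` above `∞₂`) if and only if for every character `χ` of `G` with
`χ(c) ≠ 1` the defects of Stark's equality satisfy `d_σ(χη) d_σ(χ|F₁) d_σ(χ|F₂) = d_σ(χ|F₃)`, for a
quadratic character `η` with `χη` totally odd and characters `χ|F_i` which are unramified at all finite
places.
(2) These assertions hold for all `H`, `𝔪`, if the rational form of Stark's conjecture holds for the cyclic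
extensions of finite extensions of `F` which are unramified at all finite places, and for the abelian
L-functions of `F` which do not vanish at `s = 0` (the theorem of Siegel and Klingen). -/
theorem result (F : Type) [Field F] [NumberField F] (hF : Module.finrank ℚ F = 2) :
    (∀ (H : Type) [Field H] [NumberField H] [Algebra F H] [IsGalois F H] (D : Level F H),
      D.Q1 ↔ ∀ χ : (H ≃ₐ[F] H) →* ℂˣ, χ D.c ≠ 1 → RelO χ) ∧
    (UnramifiedCase F → MinimalCase F →
      ∀ (H : Type) [Field H] [NumberField H] [Algebra F H] [IsGalois F H] (D : Level F H),
        D.Q1) :=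
  ⟨fun _ => fun D => mon_iff D hF, fun hU hM _ => fun D => mon_red D hF hU hM⟩

end Pool.Agent.Results.MP_6bf7a3_nt.MonoidUnitsUpToPowers
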